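import Pool.Agent.H548R3.PMult

/-!
MP_7b119f_an. For every complete metric space `M` all of whose points are isolated and every `p` in
`(0, 1]`, the Lipschitz free `p`-space over `M` has the approximation property.
-/

set_option autoImplicit false

open Pool.Agent.H548R3.PFree

namespace Pool.Agent.Results.MP_7b119f_an.CompleteDiscreteAP

/-- **MP_7b119f_an, complete case.** -/
theorem result (p : ℝ) (h0 : 0 < p) (h1 : p ≤ 1) (M : Type) [MetricSpace M] [CompleteSpace M]
    (hM : ∀ x : M, ∃ r : ℝ, 0 < r ∧ ∀ y : M, dist y x < r → y = x) (o : M)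
    (Z : Type) [NormedAddCommGroup Z] [Module ℝ Z] (δ : M → Z)
    (h : IsLipschitzFree p M o Z δ) : HasAP p Z := by
  have hp : Fact (0 < p ∧ p ≤ 1) := ⟨h0, h1⟩
  exact hasAP_of_complete_discrete hM h

end Pool.Agent.Results.MP_7b119f_an.CompleteDiscreteAP
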