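import Pool.Agent.H548R3.NoAP
import Pool.Agent.H548R3.PAP
import Pool.Agent.H548R3.PConstr
import Pool.Agent.H548R3.Snow

/-!
MP_7b119f_an. There is one metric space `M`, all of whose points are isolated, such that for every
`p` in `(0, 1]` the Lipschitz free `p`-space over `M` fails the approximation property.
-/

set_option autoImplicit false

open Set Filter Topology
open Pool.Agent.H548R3.PFree Pool.Agent.H548R3.NoAP
open Pool.Agent.Helper362.Hap

namespace Pool.Agent.Results.MP_7b119f_an.DiscreteNoAP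

lemma exists_net (X : Type) [MetricSpace X] (ε : ℝ) (hε : 0 < ε) :
    ∃ D : Set X, (∀ x ∈ D, ∀ y ∈ D, x ≠ y → ε ≤ dist x y) ∧ ∀ x, ∃ y ∈ D, dist x y < ε := by
  obtain ⟨D, hD⟩ := zorn_subset {s : Set X | ∀ x ∈ s, ∀ y ∈ s, x ≠ y → ε ≤ dist x y} (by
    intro c hc hchain
    refine ⟨⋃₀ c, ?_, fun s hs => subset_sUnion_of_mem hs⟩
    rintro x ⟨s, hs, hxs⟩ y ⟨t, ht, hyt⟩ hxy
    rcases hchain.total hs ht with h | h
    · exact hc ht x (h hxs) y hyt hxy
    · exact hc hs x hxs y (h hyt) hxy)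
  refine ⟨D, hD.prop, fun x => ?_⟩
  by_contra hcon
  push Not at hcon
  have h1 : insert x D ∈ {s : Set X | ∀ x ∈ s, ∀ y ∈ s, x ≠ y → ε ≤ dist x y} := by
    rintro a (rfl | ha) b (rfl | hb) hab
    · exact absurd rfl hab
    · exact hcon b hb
    · rw [dist_comm]; exact hcon a ha
    · exact hD.prop a ha b hb hab
  have h2 : x ∈ D := hD.le_of_ge h1 (subset_insert x D) (mem_insert x D)
  have h3 := hcon x h2
  rw [dist_self] at h3
  linarith

/-- maximal separated sets -/
noncomputable def net (n : ℕ) : Set E := (exists_net E ((1 / 2) ^ n) (by positivity)).choose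

lemma net_sep (n : ℕ) : ∀ x ∈ net n, ∀ y ∈ net n, x ≠ y → (1 / 2 : ℝ) ^ n ≤ dist x y :=
  (exists_net E ((1 / 2) ^ n) (by positivity)).choose_spec.1

lemma net_dense (n : ℕ) : ∀ x, ∃ y ∈ net n, dist x y < (1 / 2 : ℝ) ^ n :=
  (exists_net E ((1 / 2) ^ n) (by positivity)).choose_spec.2

/-- the discrete metric space -/
abbrev DM : Type := {q : E × ℝ // ∃ n : ℕ, q.1 ∈ net n ∧ q.2 = (1 / 2) ^ n}

lemma isolated (q : DM) : ∃ r : ℝ, 0 < r ∧ ∀ q' : DM, dist q' q < r → q' = q := by
  obtain ⟨⟨x, s⟩, n, hx, hs⟩ := q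
  simp only at hx hs
  subst hs
  refine ⟨(1 / 2) ^ (n + 1), by positivity, ?_⟩
  rintro ⟨⟨x', s'⟩, m, hx', hs'⟩ hd
  simp only at hx' hs'
  subst hs'
  have hd1 : dist x' x < (1 / 2 : ℝ) ^ (n + 1) := lt_of_le_of_lt (le_max_left _ _) hd
  have hd2 : dist ((1 / 2 : ℝ) ^ m) ((1 / 2) ^ n) < (1 / 2 : ℝ) ^ (n + 1) :=
    lt_of_le_of_lt (le_max_right _ _) hd
  have hmn : m = n := by
    rcases lt_trichotomy m n with h | h | h
    · exfalso
      have h1 : (1 / 2 : ℝ) ^ (n - 1) ≤ (1 / 2) ^ m :=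
        pow_le_pow_of_le_one (by norm_num) (by norm_num) (by omega)
      have h2 : (1 / 2 : ℝ) ^ n = (1 / 2) ^ (n - 1) * (1 / 2) := by
        rw [← pow_succ]; congr 1; omega
      have h3 : 0 < (1 / 2 : ℝ) ^ (n - 1) := by positivity
      rw [Real.dist_eq, pow_succ] at hd2
      have h4 := le_abs_self ((1 / 2 : ℝ) ^ m - (1 / 2) ^ n)
      linarith
    · exact h
    · exfalso
      have h1 : (1 / 2 : ℝ) ^ m ≤ (1 / 2) ^ (n + 1) :=
        pow_le_pow_of_le_one (by norm_num) (by norm_num) (by omega)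
      rw [Real.dist_eq] at hd2
      have h4 := neg_abs_le ((1 / 2 : ℝ) ^ m - (1 / 2) ^ n)
      have h5 : (1 / 2 : ℝ) ^ (n + 1) = (1 / 2) ^ n * (1 / 2) := pow_succ _ _
      linarith
  subst hmn
  have hxx : x' = x := by
    by_contra hne
    have h1 := net_sep m x' hx' x hx hne
    have h5 : (1 / 2 : ℝ) ^ (m + 1) = (1 / 2) ^ m * (1 / 2) := pow_succ _ _
    have h6 : 0 < (1 / 2 : ℝ) ^ m := by positivity
    linarith
  subst hxx
  rfl

/-- approximations of points of `E` by points of the discrete space -/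
noncomputable def app (x : E) (n : ℕ) : DM :=
  ⟨((net_dense n x).choose, (1 / 2) ^ n), n, (net_dense n x).choose_spec.1, rfl⟩

lemma dist_app (x : E) (n : ℕ) : dist x (app x n).1.1 < (1 / 2 : ℝ) ^ n :=
  (net_dense n x).choose_spec.2

lemma app_snd (x : E) (n : ℕ) : (app x n).1.2 = (1 / 2 : ℝ) ^ n := rfl

lemma dist_app_app (x y : E) (n m : ℕ) :
    dist (app x n) (app y m) ≤ dist x y + (1 / 2) ^ n + (1 / 2) ^ m := by
  refine max_le ?_ ?_
  · have h1 := dist_app x n
    have h2 := dist_app y m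
    rw [dist_comm] at h1
    calc dist (app x n).1.1 (app y m).1.1 ≤ dist (app x n).1.1 x + dist x y +
          dist y (app y m).1.1 := dist_triangle4 _ _ _ _
      _ ≤ _ := by linarith
  · rw [app_snd, app_snd, Real.dist_eq]
    have h1 : 0 < (1 / 2 : ℝ) ^ n := by positivity
    have h2 : 0 < (1 / 2 : ℝ) ^ m := by positivity
    have h3 : 0 ≤ dist x y := dist_nonneg
    rw [abs_le]
    constructor <;> linarith

lemma tendsto_half : Tendsto (fun n : ℕ => (1 / 2 : ℝ) ^ n) atTop (𝓝 0) :=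
  tendsto_pow_atTop_nhds_zero_of_lt_one (by norm_num) (by norm_num)

lemma not_hasAP {p : ℝ} (h0 : 0 < p) (h1 : p ≤ 1) (o : DM) (Z : Type) [NormedAddCommGroup Z]
    [Module ℝ Z] (δ : DM → Z) (h : IsLipschitzFree p DM o Z δ) : ¬ HasAP p Z := by
  have hp : Fact (0 < p ∧ p ≤ 1) := ⟨h0, h1⟩
  have hcZ : CompleteSpace Z := h.banach.2
  have hδ : ∀ x y, ‖δ x - δ y‖ = dist x y ^ p := fun x y => by
    rw [← h.isometric x y, pnorm_rpow]
  obtain ⟨β, hβ, -⟩ := h.lift (Snow p E) (isPBanach_snow p E)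
    (fun q => (toSnow (q.1.1 - o.1.1) : Snow p E)) (by
      show (toSnow (o.1.1 - o.1.1) : Snow p E) = 0
      rw [sub_self]; rfl) ⟨1, fun x y => by
      rw [pnorm_snow, one_mul]
      have h2 : (ofSnow ((toSnow (x.1.1 - o.1.1) : Snow p E) - toSnow (y.1.1 - o.1.1)) : E) =
          x.1.1 - y.1.1 := by
        show (x.1.1 - o.1.1) - (y.1.1 - o.1.1) = _
        abel
      rw [h2, ← dist_eq_norm]
      exact le_max_left _ _⟩
  -- extension of `δ`
  have hC : ∀ x : E, CauchySeq fun n => δ (app x n) := by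
    intro x
    rw [Metric.cauchySeq_iff]
    intro ε hε
    have hlim : Tendsto (fun n : ℕ => ((1 / 2 : ℝ) ^ n + (1 / 2) ^ n) ^ p) atTop (𝓝 0) := by
      have h2 := (tendsto_half.add tendsto_half).rpow_const (p := p) (Or.inr h0.le)
      rwa [add_zero, Real.zero_rpow h0.ne'] at h2
    obtain ⟨N, hN⟩ := (hlim.eventually (gt_mem_nhds hε)).exists
    refine ⟨N, fun m hm n hn => ?_⟩
    rw [dist_eq_norm, hδ]
    refine lt_of_le_of_lt (Real.rpow_le_rpow dist_nonneg ?_ h0.le) hN
    refine (dist_app_app x x m n).trans ?_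
    rw [dist_self, zero_add]
    exact add_le_add (pow_le_pow_of_le_one (by norm_num) (by norm_num) hm)
      (pow_le_pow_of_le_one (by norm_num) (by norm_num) hn)
  have hex : ∀ x : E, ∃ l, Tendsto (fun n => δ (app x n)) atTop (𝓝 l) := fun x =>
    cauchySeq_tendsto_of_complete (hC x)
  choose δ' hδ' using hex
  refine not_hasAP_of_section (X := E) h0 h.banach.1 (fun x => δ' (x + o.1.1)) zero_le_one
    (fun x y => ?_) ((snowCLM p E).comp β) (fun x => ?_) (exists_data dat)
  · rw [one_mul]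
    have h2 := ((hδ' (x + o.1.1)).sub (hδ' (y + o.1.1))).norm
    have h3 : Tendsto (fun n : ℕ => (‖x - y‖ + (1 / 2 : ℝ) ^ n + (1 / 2) ^ n) ^ p) atTop
        (𝓝 (‖x - y‖ ^ p)) := by
      have h4 := ((tendsto_half.const_add ‖x - y‖).add tendsto_half).rpow_const (p := p)
        (Or.inr h0.le)
      rwa [add_zero, add_zero] at h4
    refine le_of_tendsto_of_tendsto h2 h3 (Eventually.of_forall fun n => ?_)
    simp only
    rw [hδ]
    refine Real.rpow_le_rpow dist_nonneg ?_ h0.le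
    refine (dist_app_app _ _ n n).trans (le_of_eq ?_)
    rw [dist_add_right, dist_eq_norm]
  · have h2 : Tendsto (fun n => ((snowCLM p E).comp β) (δ (app (x + o.1.1) n))) atTop
        (𝓝 (((snowCLM p E).comp β) (δ' (x + o.1.1)))) :=
      (((snowCLM p E).comp β).continuous.tendsto _).comp (hδ' _)
    have h3 : ∀ n, ((snowCLM p E).comp β) (δ (app (x + o.1.1) n)) =
        (app (x + o.1.1) n).1.1 - o.1.1 := by
      intro n
      show ofSnow (β (δ (app (x + o.1.1) n))) = _
      rw [hβ]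
      rfl
    have h4 : Tendsto (fun n => (app (x + o.1.1) n).1.1 - o.1.1) atTop
        (𝓝 ((x + o.1.1) - o.1.1)) := by
      refine Tendsto.sub_const ?_ _
      rw [tendsto_iff_dist_tendsto_zero]
      refine squeeze_zero (fun _ => dist_nonneg) (fun n => ?_) tendsto_half
      rw [dist_comm]
      exact (dist_app _ n).le
    simp only [h3] at h2
    have h5 := tendsto_nhds_unique h2 h4
    rw [h5, add_sub_cancel_right]

/-- **MP_7b119f_an.** A metric space all of whose points are isolated (it is not complete) whose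
Lipschitz free `p`-spaces, `0 < p ≤ 1`, all fail the approximation property. -/
theorem result : ∃ (M : Type) (_ : MetricSpace M) (o : M),
    (∀ x : M, ∃ r : ℝ, 0 < r ∧ ∀ y : M, dist y x < r → y = x) ∧
    ∀ p : ℝ, 0 < p → p ≤ 1 →
      (∃ (Z : Type) (_ : NormedAddCommGroup Z) (_ : Module ℝ Z) (δ : M → Z),
        IsLipschitzFree p M o Z δ) ∧
      ∀ (Z : Type) [NormedAddCommGroup Z] [Module ℝ Z] (δ : M → Z),
        IsLipschitzFree p M o Z δ → ¬ HasAP p Z := by
  refine ⟨DM, inferInstance, app 0 0, isolated, fun p h0 h1 =>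
    ⟨?_, fun Z _ _ δ h => not_hasAP h0 h1 _ Z δ h⟩⟩
  have hp : Fact (0 < p ∧ p ≤ 1) := ⟨h0, h1⟩
  exact ⟨FF p DM, inferInstance, inferInstance, fun x => cl x _, isLipschitzFree _⟩

end Pool.Agent.Results.MP_7b119f_an.DiscreteNoAP
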